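import Pool.Agent.Q283.LP.Stm

/-! # Project LP (helper283), job LP-SUM (helper203): the main term -/

set_option autoImplicit false
set_option linter.unusedVariables false
set_option linter.unusedSectionVars false

open scoped Classical

namespace Pool.Agent.Q203.LP

open Finset Module Q283.LP

lemma z2_add_self (a : ZMod 2) : a + a = 0 := by
  revert a; decide

lemma z2_ne (a : ZMod 2) (h : a ≠ 0) : a = 1 := by
  revert a; decide

lemma sn_add_one (a : ZMod 2) : sn a + sn (a + 1) = 0 := by
  revert a; decide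

section
variable {U I : Type} [Fintype U] [Fintype I]

lemma row_add (g : Gr U I) (α : I → I → ZMod 2) (F : U ⊕ I → Prop) (x y : U ⊕ I → ZMod 2)
    (v : U ⊕ I) : g.row α F (x + y) v = g.row α F x v + g.row α F y v := by
  unfold Gr.row
  have e4 : ∑ w ∈ univ.filter F, g.sg α v w * ((x + y) w + (x + y) v) =
      ∑ w ∈ univ.filter F, g.sg α v w * (x w + x v) +
        ∑ w ∈ univ.filter F, g.sg α v w * (y w + y v) := by
    rw [← sum_add_distrib]
    refine sum_congr rfl fun q _ => ?_
    simp only [Pi.add_apply]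
    ring
  rw [e4]
  simp only [Pi.add_apply]
  ring

lemma row_zero (g : Gr U I) (α : I → I → ZMod 2) (F : U ⊕ I → Prop) (v : U ⊕ I) :
    g.row α F 0 v = 0 := by
  simp [Gr.row]

/-- The form of the system is symmetric. -/
lemma form_symm (g : Gr U I) (α : I → I → ZMod 2) (F : U ⊕ I → Prop) (x y : U ⊕ I → ZMod 2)
    (hx : ∀ v, ¬ (F v ∧ g.act v) → x v = 0) (hy : ∀ v, ¬ (F v ∧ g.act v) → y v = 0) :
    ∑ v, x v * g.row α F y v = ∑ v, y v * g.row α F x v := by
  have hs : ∀ v w, g.act v → g.act w → g.sg α v w = g.sg α w v := by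
    intro v w hv hw
    rcases v with u | p <;> rcases w with u' | q
    · exact g.sym u u' hv hw
    · rfl
    · rfl
    · simp only [Gr.sg]
      ring
  have e : ∀ z w : U ⊕ I → ZMod 2, (∀ v, ¬ (F v ∧ g.act v) → z v = 0) →
      ∑ v, z v * g.row α F w v = ∑ v, ∑ w', (if F w' then z v * w w' * g.sg α v w' else 0) +
        ∑ v, z v * w v * ((∑ w' ∈ univ.filter F, g.sg α v w') + g.f v) := by
    intro z w _
    rw [← sum_add_distrib]
    refine sum_congr rfl fun v _ => ?_
    unfold Gr.row
    have e1 : ∑ w' ∈ univ.filter F, g.sg α v w' * (w w' + w v) =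
        ∑ w' ∈ univ.filter F, g.sg α v w' * w w' + (∑ w' ∈ univ.filter F, g.sg α v w') * w v := by
      rw [sum_mul, ← sum_add_distrib]
      exact sum_congr rfl fun _ _ => mul_add _ _ _
    rw [e1, sum_filter, ← sum_filter]
    have e2 : ∑ w', (if F w' then z v * w w' * g.sg α v w' else 0) =
        z v * ∑ w' ∈ univ.filter F, g.sg α v w' * w w' := by
      rw [mul_sum, sum_filter]
      refine sum_congr rfl fun w' _ => ?_
      split_ifs <;> ring
    rw [e2]
    ring
  rw [e x y hx, e y x hy]
  congr 1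
  · rw [sum_comm]
    refine sum_congr rfl fun v _ => sum_congr rfl fun w _ => ?_
    by_cases hv : F v ∧ g.act v
    · by_cases hw : F w ∧ g.act w
      · rw [if_pos hv.1, if_pos hw.1, hs w v hw.2 hv.2]
        ring
      · rw [hx w hw]
        simp
    · rw [hy v hv]
      simp
  · refine sum_congr rfl fun v _ => ?_
    ring

end

section
variable {U I N M : Type} [Fintype U] [Fintype I] [Fintype N] [Fintype M]

lemma th_add_right (g : Gr U I) (e : M → N → ZMod 2) (b : M → U → Prop) (t : I → N → ZMod 2)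
    (r : M → ℕ) (α : I → I → ZMod 2) (x c d : KK r → U ⊕ I → ZMod 2) :
    th g e b t r α x (c + d) = th g e b t r α x c + th g e b t r α x d := by
  unfold th
  simp only [Pi.add_apply, add_mul, sum_add_distrib]

lemma th_add_left (g : Gr U I) (e : M → N → ZMod 2) (b : M → U → Prop) (t : I → N → ZMod 2)
    (r : M → ℕ) (α : I → I → ZMod 2) (x y c : KK r → U ⊕ I → ZMod 2) :
    th g e b t r α (x + y) c = th g e b t r α x c + th g e b t r α y c := by
  unfold th
  simp only [Pi.add_apply, row_add, mul_add, sum_add_distrib]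

/-- A sum over pairs. -/
lemma sum_alt {K : Type} [Fintype K] (S B : K → K → ZMod 2) (h1 : ∀ k l, S k l = S l k)
    (h2 : ∀ k, S k k = 0) (h3 : ∀ k l, S k l * B k l = S k l * B l k) :
    ∑ k, ∑ l, S k l * B k l = 0 := by
  rw [← Finset.sum_product']
  refine Finset.sum_involution (fun p _ => (p.2, p.1)) ?_ ?_ ?_ ?_
  · rintro ⟨k, l⟩ _
    simp only
    rw [h1 l k, h3 k l]
    exact z2_add_self _
  · rintro ⟨k, l⟩ _ h heq
    simp only [Prod.mk.injEq] at heq
    apply h
    simp only
    rw [heq.1, h2]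
    simp
  · intro p _
    exact mem_univ _
  · rintro ⟨k, l⟩ _
    rfl

/-- The action of the coefficients. -/
def aS (r : M → ℕ) (S : KK r → KK r → ZMod 2) (x : KK r → U ⊕ I → ZMod 2) :
    KK r → U ⊕ I → ZMod 2 := fun k v => ∑ l, S k l * x l v

lemma sx_aS (g : Gr U I) (e : M → N → ZMod 2) (b : M → U → Prop) (t : I → N → ZMod 2)
    (r : M → ℕ) (S : KK r → KK r → ZMod 2) (hS : Alt (fun k : KK r => k.1) S)
    (x : KK r → U ⊕ I → ZMod 2) (hx : Sx g e b t r x) : Sx g e b t r (aS r S x) := by
  intro k v hv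
  unfold aS
  refine sum_eq_zero fun l _ => ?_
  by_cases h : k.1 = l.1
  · rw [hx l v (by rw [← h]; exact hv), mul_zero]
  · rw [hS.2.2 k l h, zero_mul]

lemma th_aS (g : Gr U I) (e : M → N → ZMod 2) (b : M → U → Prop) (t : I → N → ZMod 2)
    (r : M → ℕ) (α : I → I → ZMod 2) (S : KK r → KK r → ZMod 2)
    (hS : Alt (fun k : KK r => k.1) S)
    (x : KK r → U ⊕ I → ZMod 2) (hx : Sx g e b t r x) :
    th g e b t r α x (aS r S x) = 0 := by
  have e1 : th g e b t r α x (aS r S x) =
      ∑ k, ∑ l, S k l * ∑ v, x l v * g.row α (FF e b t k.1) (x k) v := by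
    unfold th aS
    refine sum_congr rfl fun k _ => ?_
    simp_rw [sum_mul, mul_sum]
    rw [sum_comm]
    refine sum_congr rfl fun l _ => sum_congr rfl fun v _ => ?_
    ring
  rw [e1]
  refine sum_alt S (fun k l => ∑ v, x l v * g.row α (FF e b t k.1) (x k) v) hS.1 hS.2.1 ?_
  intro k l
  by_cases h : k.1 = l.1
  · congr 1
    rw [← h]
    exact form_symm g α (FF e b t k.1) (x l) (x k) (fun v hv => hx l v (by rw [← h]; exact hv))
      (fun v hv => hx k v hv)
  · have : S k l = 0 := hS.2.2 k l h
    rw [this, zero_mul, zero_mul]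

lemma card_Sx (g : Gr U I) (e : M → N → ZMod 2) (b : M → U → Prop) (t : I → N → ZMod 2)
    (r : M → ℕ) : (univ.filter (Sx g e b t r)).card = 2 ^ Ns g e b t r := by
  have h1 : univ.filter (Sx g e b t r) = Fintype.piFinset (fun k : KK r =>
      Fintype.piFinset (fun v : U ⊕ I =>
        if FF e b t k.1 v ∧ g.act v then (univ : Finset (ZMod 2)) else {0})) := by
    ext x
    simp only [mem_filter, mem_univ, true_and, Fintype.mem_piFinset, Sx]
    refine forall_congr' fun k => forall_congr' fun v => ?_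
    by_cases h : FF e b t k.1 v ∧ g.act v
    · simp [h]
    · simp [h]
  rw [h1, Fintype.card_piFinset]
  simp_rw [Fintype.card_piFinset]
  rw [← Finset.prod_product']
  unfold Ns
  have h2 : ∀ kv : KK r × (U ⊕ I), (if FF e b t kv.1.1 kv.2 ∧ g.act kv.2 then
      (univ : Finset (ZMod 2)) else {0}).card = if FF e b t kv.1.1 kv.2 ∧ g.act kv.2 then 2 else 1 := by
    intro kv
    split_ifs
    · simp
    · simp
  simp_rw [h2]
  rw [prod_ite, prod_const_one, mul_one, prod_const]
  rfl

/-- The vanishing of the sum over `x`. -/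
lemma sum_x_zero (g : Gr U I) (e : M → N → ZMod 2) (b : M → U → Prop) (t : I → N → ZMod 2)
    (r : M → ℕ) (hreg : ∀ (j : M) (w : Finset U), w.Nonempty → (∀ u ∈ w, g.aU u) →
      ∃ p, g.aI p ∧ ∑ i, e j i * t p i = 1 ∧ ∑ u ∈ w, g.lb p u ≠ 0)
    (c : KK r → U ⊕ I → ZMod 2) (hc : Sx g e b t r c) (hc2 : ∀ k (p : I), c k (.inr p) = 0)
    (hc0 : c ≠ 0) : ∑ x ∈ univ.filter (Sx g e b t r), sn (th g e b t r 0 x c) = 0 := by
  obtain ⟨k0, hk0⟩ := Function.ne_iff.1 hc0
  obtain ⟨v0, hv0⟩ := Function.ne_iff.1 hk0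
  obtain ⟨u0, hu0⟩ : ∃ u, c k0 (.inl u) ≠ 0 := by
    rcases v0 with u | p
    · exact ⟨u, hv0⟩
    · exact absurd (hc2 k0 p) hv0
  obtain ⟨p, hp1, hp2, hp3⟩ := hreg k0.1 (univ.filter fun u => c k0 (.inl u) ≠ 0)
    ⟨u0, by simpa using hu0⟩ (by
      intro u hu
      simp only [mem_filter, mem_univ, true_and] at hu
      by_contra hcon
      exact hu (hc k0 (.inl u) fun h => hcon h.2))
  set E : KK r → U ⊕ I → ZMod 2 := fun k v => if k = k0 ∧ v = .inr p then 1 else 0 with hE
  have hEE : E + E = 0 := by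
    funext k v
    exact z2_add_self _
  have hth : th g e b t r 0 E c = 1 := by
    unfold th
    rw [sum_eq_single k0]
    · rw [Fintype.sum_sum_type]
      have e1 : ∑ q : I, c k0 (.inr q) * g.row 0 (FF e b t k0.1) (E k0) (.inr q) = 0 :=
        sum_eq_zero fun q _ => by rw [hc2, zero_mul]
      rw [e1, add_zero]
      have e2 : ∀ u, g.row 0 (FF e b t k0.1) (E k0) (.inl u) = g.lb p u := by
        intro u
        unfold Gr.row
        have e3 : E k0 (.inl u) = 0 := by simp [hE]
        rw [e3, mul_zero, add_zero]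
        rw [sum_eq_single (.inr p)]
        · have : E k0 (.inr p) = 1 := by simp [hE]
          rw [this]
          simp [Gr.sg]
        · intro w _ hw
          have : E k0 w = 0 := by simp [hE, hw]
          rw [this]
          simp
        · intro h
          exfalso
          apply h
          simp only [mem_filter, mem_univ, true_and]
          exact hp2
      simp_rw [e2]
      have e4 : ∑ u, c k0 (.inl u) * g.lb p u =
          ∑ u ∈ univ.filter (fun u => c k0 (.inl u) ≠ 0), g.lb p u := by
        rw [sum_filter]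
        refine sum_congr rfl fun u _ => ?_
        split_ifs with h
        · rw [z2_ne _ h, one_mul]
        · push Not at h
          rw [h, zero_mul]
      rw [e4]
      exact z2_ne _ hp3
    · intro k _ hk
      refine sum_eq_zero fun v _ => ?_
      have : E k = 0 := by
        funext w
        simp [hE, hk]
      rw [this, row_zero, mul_zero]
    · intro h
      exact absurd (mem_univ _) h
  refine Finset.sum_involution (fun x _ => x + E) ?_ ?_ ?_ ?_
  · intro x _
    rw [th_add_left, hth]
    exact sn_add_one _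
  · intro x _ _ heq
    have h1 : E = 0 := by
      have : x + E = x + 0 := by rw [heq, add_zero]
      exact add_left_cancel this
    have h2 := congrFun (congrFun h1 k0) (.inr p)
    simp [hE] at h2
  · intro x hx
    simp only [mem_filter, mem_univ, true_and] at hx ⊢
    intro k v hv
    rw [Pi.add_apply, Pi.add_apply, hx k v hv, zero_add]
    simp only [hE]
    rw [if_neg]
    rintro ⟨rfl, rfl⟩
    exact hv ⟨hp2, hp1⟩
  · intro x _
    rw [add_assoc, hEE, add_zero]

end

theorem t_SUM : S_SUM := by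
  intro U I N M _ _ _ _ g e b t r S hS hreg
  have h1 : ∑ y ∈ univ.filter (fun y : (KK r → U ⊕ I → ZMod 2) × (KK r → U ⊕ I → ZMod 2) =>
      Sx g e b t r y.1 ∧ Sx g e b t r y.2 ∧ As r S y.1 y.2), sn (th g e b t r 0 y.1 y.2) =
      ∑ y ∈ (univ.filter (fun c : KK r → U ⊕ I → ZMod 2 => Sx g e b t r c ∧
        ∀ k (p : I), c k (.inr p) = 0)) ×ˢ univ.filter (Sx g e b t r),
        sn (th g e b t r 0 y.2 y.1) := by
    have hinv : ∀ c d : KK r → U ⊕ I → ZMod 2, c + d + d = c := by
      intro c d
      rw [add_assoc]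
      have : d + d = 0 := by
        funext k v
        exact z2_add_self _
      rw [this, add_zero]
    have hadd : ∀ c d : KK r → U ⊕ I → ZMod 2, Sx g e b t r c → Sx g e b t r d →
        Sx g e b t r (c + d) := by
      intro c d hc hd k v hv
      rw [Pi.add_apply, Pi.add_apply, hc k v hv, hd k v hv, add_zero]
    refine Finset.sum_nbij' (fun y => (y.2 + aS r S y.1, y.1)) (fun y => (y.2, y.1 + aS r S y.2))
      ?_ ?_ ?_ ?_ ?_
    · rintro ⟨x, c⟩ h
      simp only [mem_filter, mem_univ, true_and, mem_product] at h ⊢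
      obtain ⟨hx, hc, hA⟩ := h
      refine ⟨⟨hadd _ _ hc (sx_aS g e b t r S hS x hx), fun k p => ?_⟩, hx⟩
      rw [Pi.add_apply, Pi.add_apply, hA k p]
      exact z2_add_self _
    · rintro ⟨c, x⟩ h
      simp only [mem_filter, mem_univ, true_and, mem_product] at h ⊢
      obtain ⟨⟨hc, hc2⟩, hx⟩ := h
      refine ⟨hx, hadd _ _ hc (sx_aS g e b t r S hS x hx), fun k p => ?_⟩
      rw [Pi.add_apply, Pi.add_apply, hc2 k p, zero_add]
      rfl
    · rintro ⟨x, c⟩ _
      simp only
      rw [hinv]
    · rintro ⟨c, x⟩ _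
      simp only
      rw [hinv]
    · rintro ⟨x, c⟩ h
      simp only [mem_filter, mem_univ, true_and] at h
      simp only
      rw [th_add_right, th_aS g e b t r 0 S hS x h.1, add_zero]
  rw [h1, Finset.sum_product, Finset.sum_eq_single 0]
  · have h2 : ∀ x : KK r → U ⊕ I → ZMod 2, sn (th g e b t r 0 x 0) = 1 := by
      intro x
      have : th g e b t r 0 x 0 = 0 := by
        unfold th
        simp
      rw [this]
      rfl
    simp_rw [h2]
    rw [sum_const, card_Sx]
    simp
  · intro c hc hc0
    simp only [mem_filter, mem_univ, true_and] at hc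
    exact sum_x_zero g e b t r hreg c hc.1 hc.2 hc0
  · intro h
    exfalso
    apply h
    simp only [mem_filter, mem_univ, true_and]
    exact ⟨fun k v _ => rfl, fun k p => rfl⟩

end Pool.Agent.Q203.LP
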