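import Pool.Agent.Q283.LP.Stm

/-! # Project LP (helper283), job LP-CNF (helper203): few pairs are not full -/

set_option autoImplicit false
set_option linter.unusedVariables false

open scoped Classical

namespace Pool.Agent.Q203.LP

open Finset Module Q283.LP

section
variable {U I N M : Type} [Fintype U] [Fintype I] [Fintype N] [Fintype M]

/-- the intersection does not depend on the decision procedure -/
theorem inter_any {α : Type} {i1 i2 : DecidableEq α} (s t : Finset α) (a : α) :
    a ∈ @Inter.inter _ (@Finset.instInter α i1) s t ↔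
      a ∈ @Inter.inter _ (@Finset.instInter α i2) s t := by
  obtain rfl : i1 = i2 := Subsingleton.elim _ _
  exact Iff.rfl

/-- The family of the pairs is admissible. -/
lemma fa_Zf (g : Gr U I) (e : M → N → ZMod 2) (b : M → U → Prop) (t : I → N → ZMod 2) (r : M → ℕ)
    (hp : ∀ s : N → ZMod 2, ∃ p, ¬ g.aI p ∧ t p = s) (x c : KK r → U ⊕ I → ZMod 2)
    (hx : Sx g e b t r x) (hc : Sx g e b t r c) (hP : Pc e t r x c) :
    Fa e (fun k : KK r => k.1) (Zf t r x c) := by
  refine ⟨?_, ?_, ?_⟩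
  · intro s z hz
    simp only [Zf, mem_image, mem_filter, mem_univ, true_and] at hz
    obtain ⟨p, hps, rfl⟩ := hz
    intro k hk
    have h1 : ¬ (FF e b t k.1 (.inr p) ∧ g.act (.inr p)) := by
      rintro ⟨h2, -⟩
      apply hk
      simp only [Jt, mem_filter, mem_univ, true_and]
      rw [← hps]
      exact h2
    exact ⟨hx k _ h1, hc k _ h1⟩
  · intro s
    obtain ⟨p, hp1, hp2⟩ := hp s
    simp only [Zf, mem_image, mem_filter, mem_univ, true_and]
    refine ⟨p, hp2, ?_⟩
    have h1 : ∀ k : KK r, ¬ (FF e b t k.1 (.inr p) ∧ g.act (.inr p)) := fun k h => hp1 h.2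
    refine Prod.ext ?_ ?_
    · funext k
      exact hx k _ (h1 k)
    · funext k
      exact hc k _ (h1 k)
  · intro s s' z hz w hw
    simp only [Zf, mem_image, mem_filter, mem_univ, true_and] at hz hw
    obtain ⟨p, hps, rfl⟩ := hz
    obtain ⟨q, hqs, rfl⟩ := hw
    have h := hP p q
    rw [hps, hqs] at h
    unfold Qf
    refine Eq.trans (Finset.sum_congr (Finset.ext fun k => ?_) fun k _ => rfl) h
    exact inter_any _ _ _

/-- The number of the pairs with a given family. -/
lemma card_fib (g : Gr U I) (e : M → N → ZMod 2) (b : M → U → Prop) (t : I → N → ZMod 2)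
    (r : M → ℕ) (F : Finset ((KK r → U ⊕ I → ZMod 2) × (KK r → U ⊕ I → ZMod 2)))
    (hF : ∀ y ∈ F, Sx g e b t r y.1 ∧ Sx g e b t r y.2)
    (Y : (N → ZMod 2) → Finset (WW (KK r))) (hY : ∀ y ∈ F, Zf t r y.1 y.2 = Y) :
    F.card ≤ 2 ^ (2 * Fintype.card (KK r) * Fintype.card U) *
      ∏ p : I, if g.aI p then (Y (t p)).card else 1 := by
  let T : Finset ((KK r → U → ZMod 2) × (KK r → U → ZMod 2) × (I → WW (KK r))) :=
    univ ×ˢ univ ×ˢ Fintype.piFinset (fun p : I => if g.aI p then Y (t p) else {0})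
  let φ : (KK r → U ⊕ I → ZMod 2) × (KK r → U ⊕ I → ZMod 2) →
      (KK r → U → ZMod 2) × (KK r → U → ZMod 2) × (I → WW (KK r)) := fun y =>
    (fun k u => y.1 k (.inl u), fun k u => y.2 k (.inl u),
      fun p => (fun k => y.1 k (.inr p), fun k => y.2 k (.inr p)))
  have hT : T.card = 2 ^ (2 * Fintype.card (KK r) * Fintype.card U) *
      ∏ p : I, if g.aI p then (Y (t p)).card else 1 := by
    have h1 : ∀ p : I, (if g.aI p then Y (t p) else ({0} : Finset (WW (KK r)))).card =
        if g.aI p then (Y (t p)).card else 1 := by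
      intro p
      split_ifs <;> simp
    simp only [T, card_product, Fintype.card_piFinset, card_univ, Fintype.card_fun, ZMod.card, h1]
    rw [← mul_assoc, ← pow_mul, ← pow_add]
    congr 2
    ring
  rw [← hT]
  refine card_le_card_of_injOn φ ?_ ?_
  · intro y hy
    have hy' : y ∈ F := hy
    obtain ⟨hx, hc⟩ := hF y hy'
    have hZ := hY y hy'
    simp only [T, coe_product, coe_univ, Set.mem_prod, Set.mem_univ, true_and, mem_coe,
      Fintype.mem_piFinset, φ]
    intro p
    split_ifs with hp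
    · rw [← hZ]
      simp only [Zf, mem_image, mem_filter, mem_univ, true_and]
      exact ⟨p, rfl, rfl⟩
    · rw [mem_singleton]
      have h1 : ∀ k : KK r, ¬ (FF e b t k.1 (.inr p) ∧ g.act (.inr p)) := fun k h => hp h.2
      refine Prod.ext ?_ ?_
      · funext k
        exact hx k _ (h1 k)
      · funext k
        exact hc k _ (h1 k)
  · intro y _ z _ h
    simp only [φ, Prod.mk.injEq] at h
    obtain ⟨h1, h2, h3⟩ := h
    refine Prod.ext ?_ ?_
    · funext k v
      rcases v with u | p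
      · exact congrFun (congrFun h1 k) u
      · exact congrFun (congrArg Prod.fst (congrFun h3 p)) k
    · funext k v
      rcases v with u | p
      · exact congrFun (congrFun h2 k) u
      · exact congrFun (congrArg Prod.snd (congrFun h3 p)) k

lemma sum_Jt_le (g : Gr U I) (e : M → N → ZMod 2) (b : M → U → Prop) (t : I → N → ZMod 2)
    (r : M → ℕ) : ∑ p ∈ univ.filter (fun p : I => g.aI p),
      (Jt e (fun k : KK r => k.1) (t p)).card ≤ Ns g e b t r := by
  rw [← card_sigma]
  unfold Ns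
  refine card_le_card_of_injOn (fun s => (s.2, .inr s.1)) ?_ ?_
  · rintro ⟨p, k⟩ h
    simp only [coe_sigma, Set.mem_sigma_iff, mem_coe, mem_filter, mem_univ, true_and] at h
    simp only [mem_coe, mem_filter, mem_univ, true_and]
    refine ⟨?_, h.1⟩
    have := h.2
    simp only [Jt, mem_filter, mem_univ, true_and] at this
    exact this
  · rintro ⟨p, k⟩ _ ⟨q, l⟩ _ h
    simp only [Prod.mk.injEq, Sum.inr.injEq] at h
    obtain ⟨rfl, rfl⟩ := h
    rfl

/-- The product over the active indices. -/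
lemma prod_bound (g : Gr U I) (e : M → N → ZMod 2) (b : M → U → Prop) (t : I → N → ZMod 2)
    (r : M → ℕ) (Y : (N → ZMod 2) → Finset (WW (KK r)))
    (h1 : ∀ s, (Y s).card ≤ 2 ^ (Jt e (fun k : KK r => k.1) s).card) (s : N → ZMod 2)
    (hs : (Y s).card ≠ 2 ^ (Jt e (fun k : KK r => k.1) s).card) (n : ℕ)
    (hn : n ≤ (univ.filter fun p => g.aI p ∧ t p = s).card) :
    ((∏ p : I, if g.aI p then (Y (t p)).card else 1 : ℕ) : ℝ) ≤
      2 ^ Ns g e b t r * (1 - (2 ^ Fintype.card (KK r) : ℝ)⁻¹) ^ n := by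
  set q : ℝ := 1 - (2 ^ Fintype.card (KK r) : ℝ)⁻¹ with hq
  have hpow : (1 : ℝ) ≤ 2 ^ Fintype.card (KK r) := one_le_pow₀ (by norm_num)
  have hq0 : 0 ≤ q := by
    have : (2 ^ Fintype.card (KK r) : ℝ)⁻¹ ≤ 1 := inv_le_one_of_one_le₀ hpow
    linarith
  have hq1 : q ≤ 1 := by
    have : (0 : ℝ) ≤ (2 ^ Fintype.card (KK r) : ℝ)⁻¹ := by positivity
    linarith
  have hYs : ((Y s).card : ℝ) ≤ 2 ^ (Jt e (fun k : KK r => k.1) s).card * q := by
    have h2 : (Y s).card + 1 ≤ 2 ^ (Jt e (fun k : KK r => k.1) s).card :=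
      lt_of_le_of_ne (h1 s) hs
    have h3 : ((Y s).card : ℝ) + 1 ≤ 2 ^ (Jt e (fun k : KK r => k.1) s).card := by
      exact_mod_cast h2
    have h4 : (Jt e (fun k : KK r => k.1) s).card ≤ Fintype.card (KK r) := card_le_univ _
    have h5 : (2 : ℝ) ^ (Jt e (fun k : KK r => k.1) s).card * (2 ^ Fintype.card (KK r) : ℝ)⁻¹ ≤ 1 := by
      rw [mul_inv_le_iff₀ (by positivity), one_mul]
      exact pow_le_pow_right₀ (by norm_num) h4
    rw [hq, mul_sub, mul_one]
    linarith
  have hfac : ∀ p : I, ((if g.aI p then (Y (t p)).card else 1 : ℕ) : ℝ) ≤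
      (if g.aI p then (2 : ℝ) ^ (Jt e (fun k : KK r => k.1) (t p)).card else 1) *
        (if g.aI p ∧ t p = s then q else 1) := by
    intro p
    by_cases ha : g.aI p
    · by_cases ht : t p = s
      · simp only [ha, ht, if_true, and_self]
        exact hYs
      · simp only [ha, ht, if_true, and_false, if_false, mul_one]
        exact_mod_cast h1 (t p)
    · simp [ha]
  rw [Nat.cast_prod]
  calc ∏ p : I, ((if g.aI p then (Y (t p)).card else 1 : ℕ) : ℝ)
      ≤ ∏ p : I, ((if g.aI p then (2 : ℝ) ^ (Jt e (fun k : KK r => k.1) (t p)).card else 1) *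
        (if g.aI p ∧ t p = s then q else 1)) :=
        prod_le_prod (fun p _ => Nat.cast_nonneg _) fun p _ => hfac p
    _ = (∏ p : I, if g.aI p then (2 : ℝ) ^ (Jt e (fun k : KK r => k.1) (t p)).card else 1) *
        ∏ p : I, (if g.aI p ∧ t p = s then q else 1) := prod_mul_distrib
    _ = 2 ^ (∑ p ∈ univ.filter (fun p : I => g.aI p),
          (Jt e (fun k : KK r => k.1) (t p)).card) *
        q ^ (univ.filter fun p => g.aI p ∧ t p = s).card := by
        congr 1
        · rw [prod_ite, prod_const_one, mul_one, prod_pow_eq_pow_sum]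
        · rw [prod_ite, prod_const_one, mul_one, prod_const]
    _ ≤ 2 ^ Ns g e b t r * q ^ n := by
        have e1 : (2 : ℝ) ^ (∑ p ∈ univ.filter (fun p : I => g.aI p),
          (Jt e (fun k : KK r => k.1) (t p)).card) ≤ 2 ^ Ns g e b t r :=
          pow_le_pow_right₀ (by norm_num) (sum_Jt_le g e b t r)
        have e2 : q ^ (univ.filter fun p => g.aI p ∧ t p = s).card ≤ q ^ n :=
          pow_le_pow_of_le_one hq0 hq1 hn
        gcongr

end

theorem t_CNF (h1 : S_ISO) (h2 : S_STR) : S_CNF := by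
  intro N M _ _ e r hinj hne
  set K := KK r with hK
  set q : ℝ := 1 - (2 ^ Fintype.card (KK r) : ℝ)⁻¹ with hq
  have hpow : (1 : ℝ) ≤ 2 ^ Fintype.card (KK r) := one_le_pow₀ (by norm_num)
  have hq0 : 0 ≤ q := by
    have : (2 ^ Fintype.card (KK r) : ℝ)⁻¹ ≤ 1 := inv_le_one_of_one_le₀ hpow
    linarith
  have hq1 : q < 1 := by
    have : (0 : ℝ) < (2 ^ Fintype.card (KK r) : ℝ)⁻¹ := by positivity
    linarith
  obtain ⟨C, hC⟩ := exists_pow_lt_of_lt_one
    (show (0 : ℝ) < (2 ^ (2 * Fintype.card (KK r)) : ℝ)⁻¹ by positivity) hq1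
  refine ⟨C, fun δ hδ => ?_⟩
  have hfam : (0 : ℝ) < Fintype.card ((N → ZMod 2) → Finset (WW (KK r))) := by
    exact_mod_cast Fintype.card_pos
  obtain ⟨R, hR⟩ := exists_pow_lt_of_lt_one
    (show (0 : ℝ) < δ / Fintype.card ((N → ZMod 2) → Finset (WW (KK r))) by positivity) hq1
  refine ⟨R, fun U I _ _ g b t hT => ?_⟩
  set F := (univ.filter fun y : (KK r → U ⊕ I → ZMod 2) × (KK r → U ⊕ I → ZMod 2) =>
    Sx g e b t r y.1 ∧ Sx g e b t r y.2 ∧ Pc e t r y.1 y.2 ∧ ¬ Fl e t r y.1 y.2) with hF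
  have hfib : F.card = ∑ Y : (N → ZMod 2) → Finset (WW (KK r)),
      (F.filter fun y => Zf t r y.1 y.2 = Y).card :=
    card_eq_sum_card_fiberwise fun y _ => mem_univ _
  have hB : ∀ Y : (N → ZMod 2) → Finset (WW (KK r)),
      ((F.filter fun y => Zf t r y.1 y.2 = Y).card : ℝ) ≤ 2 ^ Ns g e b t r * q ^ R := by
    intro Y
    rcases (F.filter fun y => Zf t r y.1 y.2 = Y).eq_empty_or_nonempty with h0 | ⟨y, hy⟩
    · rw [h0]
      simp only [card_empty, Nat.cast_zero]
      positivity
    · rw [mem_filter, hF, mem_filter] at hy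
      obtain ⟨⟨-, hx, hc, hP, hFl⟩, hZ⟩ := hy
      have hfa := fa_Zf g e b t r hT.pas y.1 y.2 hx hc hP
      have hstr := (h2 N M (KK r) e (fun k => k.1) _ hinj hne hfa).1
      rw [hZ] at hstr
      unfold Fl at hFl
      rw [hZ] at hFl
      push Not at hFl
      obtain ⟨s, hs⟩ := hFl
      have hc1 := card_fib g e b t r (F.filter fun y => Zf t r y.1 y.2 = Y)
        (fun z hz => by
          rw [mem_filter, hF, mem_filter] at hz
          exact ⟨hz.1.2.1, hz.1.2.2.1⟩) Y (fun z hz => (mem_filter.1 hz).2)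
      have hc2 := prod_bound g e b t r Y hstr s hs (C * Fintype.card U + R) (hT.act s)
      have hc3 : ((F.filter fun y => Zf t r y.1 y.2 = Y).card : ℝ) ≤
          2 ^ (2 * Fintype.card (KK r) * Fintype.card U) *
            ((∏ p : I, if g.aI p then (Y (t p)).card else 1 : ℕ) : ℝ) := by
        exact_mod_cast hc1
      refine hc3.trans ?_
      have hU : (2 : ℝ) ^ (2 * Fintype.card (KK r) * Fintype.card U) *
          q ^ (C * Fintype.card U) ≤ 1 := by
        rw [pow_mul (2 : ℝ) (2 * Fintype.card (KK r)) (Fintype.card U),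
          pow_mul q C (Fintype.card U), ← mul_pow]
        refine pow_le_one₀ (by positivity) ?_
        have h4 : (0 : ℝ) < 2 ^ (2 * Fintype.card (KK r)) := by positivity
        calc (2 : ℝ) ^ (2 * Fintype.card (KK r)) * q ^ C
            ≤ 2 ^ (2 * Fintype.card (KK r)) * (2 ^ (2 * Fintype.card (KK r)))⁻¹ := by gcongr
          _ = 1 := mul_inv_cancel₀ h4.ne'
      calc (2 : ℝ) ^ (2 * Fintype.card (KK r) * Fintype.card U) *
            ((∏ p : I, if g.aI p then (Y (t p)).card else 1 : ℕ) : ℝ)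
          ≤ 2 ^ (2 * Fintype.card (KK r) * Fintype.card U) *
            (2 ^ Ns g e b t r * q ^ (C * Fintype.card U + R)) := by gcongr
        _ = (2 ^ (2 * Fintype.card (KK r) * Fintype.card U) * q ^ (C * Fintype.card U)) *
            (2 ^ Ns g e b t r * q ^ R) := by rw [pow_add]; ring
        _ ≤ 1 * (2 ^ Ns g e b t r * q ^ R) := by
            refine mul_le_mul_of_nonneg_right hU ?_
            positivity
        _ = _ := one_mul _
  rw [hfib]
  push_cast
  calc ∑ Y : (N → ZMod 2) → Finset (WW (KK r)),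
        ((F.filter fun y => Zf t r y.1 y.2 = Y).card : ℝ)
      ≤ ∑ _Y : (N → ZMod 2) → Finset (WW (KK r)), 2 ^ Ns g e b t r * q ^ R :=
        sum_le_sum fun Y _ => hB Y
    _ = Fintype.card ((N → ZMod 2) → Finset (WW (KK r))) * (2 ^ Ns g e b t r * q ^ R) := by
        rw [sum_const, card_univ, nsmul_eq_mul]
    _ = (Fintype.card ((N → ZMod 2) → Finset (WW (KK r))) * q ^ R) * 2 ^ Ns g e b t r := by ring
    _ ≤ δ * 2 ^ Ns g e b t r := by
        refine mul_le_mul_of_nonneg_right ?_ (by positivity)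
        rw [lt_div_iff₀ hfam] at hR
        linarith

end Pool.Agent.Q203.LP
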